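import Pool.Agent.V5helper56.AN.Pol
import Pool.Agent.TH635.FB.Freq

/-!
# Affine maps with integer linear part
-/

set_option autoImplicit false

open Polynomial

namespace Pool.Agent.V5helper56.AN

/-- integer matrices act on `M^d` -/
def ma {d : ℕ} {M : Type*} [AddCommGroup M] (A : Matrix (Fin d) (Fin d) ℤ) (x : Fin d → M) :
    Fin d → M := fun i => ∑ k, A i k • x k

section ma

variable {d : ℕ} {M : Type*} [AddCommGroup M] {N : Type*} [AddCommGroup N]

theorem ma_mul (A B : Matrix (Fin d) (Fin d) ℤ) (x : Fin d → M) : ma (A * B) x = ma A (ma B x) := by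
  funext i
  show ∑ k, (A * B) i k • x k = ∑ j, A i j • ∑ k, B j k • x k
  simp_rw [Matrix.mul_apply, Finset.sum_smul, Finset.smul_sum, mul_smul]
  exact Finset.sum_comm

theorem ma_one (x : Fin d → M) : ma (1 : Matrix (Fin d) (Fin d) ℤ) x = x := by
  funext i
  show ∑ k, (1 : Matrix (Fin d) (Fin d) ℤ) i k • x k = x i
  rw [Finset.sum_eq_single i]
  · rw [Matrix.one_apply_eq, one_smul]
  · intro k _ hk
    rw [Matrix.one_apply_ne (Ne.symm hk), zero_smul]
  · intro h
    exact absurd (Finset.mem_univ i) h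

theorem ma_add (A : Matrix (Fin d) (Fin d) ℤ) (x y : Fin d → M) :
    ma A (x + y) = ma A x + ma A y := by
  funext i
  show ∑ k, A i k • (x k + y k) = ∑ k, A i k • x k + ∑ k, A i k • y k
  simp_rw [smul_add, Finset.sum_add_distrib]

theorem ma_zero (A : Matrix (Fin d) (Fin d) ℤ) : ma A (0 : Fin d → M) = 0 := by
  funext i
  show ∑ k, A i k • (0 : M) = 0
  simp

theorem ma_neg (A : Matrix (Fin d) (Fin d) ℤ) (x : Fin d → M) : ma A (-x) = -ma A x := by
  funext i
  show ∑ k, A i k • (-x k) = -∑ k, A i k • x k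
  simp

theorem ma_map (φ : M →+ N) (A : Matrix (Fin d) (Fin d) ℤ) (x : Fin d → M) :
    ma A (fun i => φ (x i)) = fun i => φ (ma A x i) := by
  funext i
  show ∑ k, A i k • φ (x k) = φ (∑ k, A i k • x k)
  rw [map_sum]
  exact Finset.sum_congr rfl fun k _ => (map_zsmul φ _ _).symm

/-- pairing with integer vectors -/
def pr (v : Fin d → ℤ) (x : Fin d → M) : M := ∑ i, v i • x i

theorem pr_ma (v : Fin d → ℤ) (A : Matrix (Fin d) (Fin d) ℤ) (x : Fin d → M) :
    pr v (ma A x) = pr (A.transpose.mulVec v) x := by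
  show ∑ i, v i • ∑ k, A i k • x k = ∑ k, (∑ i, A i k * v i) • x k
  simp_rw [Finset.smul_sum, Finset.sum_smul, smul_smul]
  rw [Finset.sum_comm]
  exact Finset.sum_congr rfl fun i _ => Finset.sum_congr rfl fun k _ => by rw [mul_comm]

theorem pr_add (v : Fin d → ℤ) (x y : Fin d → M) : pr v (x + y) = pr v x + pr v y := by
  show ∑ i, v i • (x i + y i) = ∑ i, v i • x i + ∑ i, v i • y i
  simp_rw [smul_add, Finset.sum_add_distrib]

theorem pr_sum {J : Type*} (s : Finset J) (v : J → Fin d → ℤ) (x : Fin d → M) :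
    pr (∑ j ∈ s, v j) x = ∑ j ∈ s, pr (v j) x := by
  show ∑ i, (∑ j ∈ s, v j) i • x i = ∑ j ∈ s, ∑ i, v j i • x i
  simp_rw [Finset.sum_apply, Finset.sum_smul]
  exact Finset.sum_comm

theorem pr_map (φ : M →+ N) (v : Fin d → ℤ) (x : Fin d → M) :
    pr v (fun i => φ (x i)) = φ (pr v x) := by
  show ∑ i, v i • φ (x i) = φ (∑ i, v i • x i)
  rw [map_sum]
  exact Finset.sum_congr rfl fun k _ => (map_zsmul φ _ _).symm

end ma

/-- affine maps `x ↦ A x + c`, `A ∈ GL_d(ℤ)`, `c ∈ M^d` -/
@[ext] structure Aff (d : ℕ) (M : Type) where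
  /-- linear part -/
  A : (Matrix (Fin d) (Fin d) ℤ)ˣ
  /-- translation -/
  c : Fin d → M

namespace Aff

variable {d : ℕ} {M : Type} [AddCommGroup M] {N : Type} [AddCommGroup N]

instance : Mul (Aff d M) := ⟨fun a b => ⟨a.A * b.A, ma (a.A : Matrix (Fin d) (Fin d) ℤ) b.c + a.c⟩⟩

instance : One (Aff d M) := ⟨⟨1, 0⟩⟩

instance : Inv (Aff d M) := ⟨fun a => ⟨a.A⁻¹, -ma ((a.A⁻¹ : (Matrix (Fin d) (Fin d) ℤ)ˣ) :
  Matrix (Fin d) (Fin d) ℤ) a.c⟩⟩

theorem mul_A (a b : Aff d M) : (a * b).A = a.A * b.A := rfl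

theorem mul_c (a b : Aff d M) :
    (a * b).c = ma (a.A : Matrix (Fin d) (Fin d) ℤ) b.c + a.c := rfl

theorem one_A : (1 : Aff d M).A = 1 := rfl

theorem one_c : (1 : Aff d M).c = 0 := rfl

theorem inv_A (a : Aff d M) : (a⁻¹).A = (a.A)⁻¹ := rfl

theorem inv_c (a : Aff d M) : (a⁻¹).c = -ma ((a.A⁻¹ : (Matrix (Fin d) (Fin d) ℤ)ˣ) :
  Matrix (Fin d) (Fin d) ℤ) a.c := rfl

instance : Group (Aff d M) := Group.ofLeftAxioms
  (fun a b c => by
    ext1
    · rw [mul_A, mul_A, mul_A, mul_A, mul_assoc]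
    · rw [mul_c, mul_c, mul_c, mul_c, mul_A, Units.val_mul, ma_mul, ma_add, add_assoc])
  (fun a => by
    ext1
    · rw [mul_A, one_A, one_mul]
    · rw [mul_c, one_A, one_c, Units.val_one, ma_one, add_zero])
  (fun a => by
    ext1
    · rw [mul_A, inv_A, one_A, inv_mul_cancel]
    · rw [mul_c, inv_A, inv_c, one_c, add_neg_cancel])

/-- the linear part -/
def lin : Aff d M →* (Matrix (Fin d) (Fin d) ℤ)ˣ where
  toFun a := a.A
  map_one' := rfl
  map_mul' _ _ := rfl

/-- the affine map -/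
def act (a : Aff d M) (x : Fin d → M) : Fin d → M :=
  ma (a.A : Matrix (Fin d) (Fin d) ℤ) x + a.c

theorem act_mul (a b : Aff d M) (x : Fin d → M) : (a * b).act x = a.act (b.act x) := by
  rw [act, act, act, mul_A, mul_c, Units.val_mul, ma_mul, ma_add, add_assoc]

theorem act_one (x : Fin d → M) : (1 : Aff d M).act x = x := by
  rw [act, one_A, one_c, Units.val_one, ma_one, add_zero]

/-- the affine bijections -/
def perm : Aff d M →* Equiv.Perm (Fin d → M) where
  toFun a :=
    { toFun := a.act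
      invFun := (a⁻¹).act
      left_inv := fun x => by rw [← act_mul, inv_mul_cancel, act_one]
      right_inv := fun x => by rw [← act_mul, mul_inv_cancel, act_one] }
  map_one' := by
    ext1 x
    exact act_one x
  map_mul' a b := by
    ext1 x
    exact act_mul a b x

theorem perm_apply (a : Aff d M) (x : Fin d → M) : perm a x = a.act x := rfl

/-- change of the module of translations -/
def map (φ : M →+ N) : Aff d M →* Aff d N where
  toFun a := ⟨a.A, fun i => φ (a.c i)⟩
  map_one' := by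
    ext1
    · rfl
    · funext i
      exact map_zero φ
  map_mul' a b := by
    ext1
    · rfl
    · show (fun i => φ ((a * b).c i)) = ma _ (fun i => φ (b.c i)) + fun i => φ (a.c i)
      rw [ma_map]
      funext i
      rw [mul_c]
      exact map_add φ _ _

theorem map_A (φ : M →+ N) (a : Aff d M) : (map φ a).A = a.A := rfl

theorem map_c (φ : M →+ N) (a : Aff d M) (i : Fin d) : (map φ a).c i = φ (a.c i) := rfl

/-- the linear representation on `ℚ^d × ℚ` given by a homomorphism `M → ℚ` -/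
def rep (φ : M →+ ℚ) : Aff d M →* Module.End ℚ ((Fin d → ℚ) × ℚ) where
  toFun a :=
    { toFun := fun p => (ma (a.A : Matrix (Fin d) (Fin d) ℤ) p.1 + p.2 • fun i => φ (a.c i), p.2)
      map_add' := fun p q => by
        ext1
        · show ma _ (p.1 + q.1) + (p.2 + q.2) • _ = (ma _ p.1 + p.2 • _) + (ma _ q.1 + q.2 • _)
          rw [ma_add, add_smul]
          abel
        · rfl
      map_smul' := fun t p => by
        ext1
        · show ma _ (t • p.1) + (t • p.2) • _ = t • (ma _ p.1 + p.2 • _)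
          rw [smul_add, smul_assoc]
          congr 1
          funext i
          show ∑ k, _ • (t * p.1 k) = t * ∑ k, _ • p.1 k
          rw [Finset.mul_sum]
          exact Finset.sum_congr rfl fun k _ => by
            rw [zsmul_eq_mul, zsmul_eq_mul]
            ring
        · rfl }
  map_one' := by
    apply LinearMap.ext
    intro p
    refine Prod.ext ?_ rfl
    show ma (((1 : Aff d M).A : (Matrix (Fin d) (Fin d) ℤ)ˣ) : Matrix (Fin d) (Fin d) ℤ) p.1 +
      p.2 • (fun i => φ ((1 : Aff d M).c i)) = p.1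
    rw [one_A, Units.val_one, ma_one]
    funext i
    show p.1 i + p.2 * φ 0 = p.1 i
    rw [map_zero, mul_zero, add_zero]
  map_mul' a b := by
    apply LinearMap.ext
    intro p
    ext1
    · show ma _ p.1 + p.2 • (fun i => φ ((a * b).c i)) =
        ma _ (ma _ p.1 + p.2 • fun i => φ (b.c i)) + p.2 • fun i => φ (a.c i)
      rw [ma_add, mul_A, Units.val_mul, ma_mul, add_assoc]
      congr 1
      funext i
      show p.2 * φ ((ma _ b.c + a.c) i) = ∑ k, _ • (p.2 * φ (b.c k)) + p.2 * φ (a.c i)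
      rw [Pi.add_apply, map_add, mul_add]
      congr 1
      show p.2 * φ (∑ k, _ • b.c k) = _
      rw [map_sum, Finset.mul_sum]
      exact Finset.sum_congr rfl fun k _ => by
        rw [map_zsmul, zsmul_eq_mul, zsmul_eq_mul]
        ring
    · rfl

theorem rep_apply (φ : M →+ ℚ) (a : Aff d M) (p : (Fin d → ℚ) × ℚ) :
    rep φ a p = (ma (a.A : Matrix (Fin d) (Fin d) ℤ) p.1 + p.2 • fun i => φ (a.c i), p.2) := rfl

end Aff

end Pool.Agent.V5helper56.AN
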