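import Pool.Agent.TH635.FB.Fin

/-!
# From characters to bounded functions, along an arbitrary family of measure preserving maps of the
torus (adapted from `Pool/Agent/TH635/FB`)
-/

set_option autoImplicit false

open Filter Topology MeasureTheory UnitAddTorus Polynomial

noncomputable section

namespace Pool.Agent.V5helper56.AN

open Pool.Agent.H922R3.TA (haarT)
open Pool.Agent.TH635.FB

variable {d m : ℕ}

/-- convergence for products of characters -/
def Chs (g : Fin m → ℤ → UnitAddTorus (Fin d) → UnitAddTorus (Fin d)) : Prop :=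
  ∀ F : Fin m → UnitAddTorus (Fin d) → ℂ, (∀ j, ∃ v, F j = mFourier v) → Cv (haarT d) g F

/-- products of continuous functions -/
theorem Cv_cont {g : Fin m → ℤ → UnitAddTorus (Fin d) → UnitAddTorus (Fin d)} (hg0 : Chs g)
    {F : Fin m → UnitAddTorus (Fin d) → ℂ} (hF : ∀ j, Continuous (F j)) :
    Cv (haarT d) g F := by
  have hbd : ∀ p : C(UnitAddTorus (Fin d), ℂ), Bd p := fun p =>
    ⟨‖p‖, fun x => ContinuousMap.norm_coe_le_norm p x⟩
  have key : ∀ S : Finset (Fin m), ∀ F : Fin m → C(UnitAddTorus (Fin d), ℂ),
      (∀ j, j ∉ S → ∃ v, F j = mFourier v) → Cv (haarT d) g (fun j => F j) := by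
    intro S
    induction S using Finset.induction_on with
    | empty =>
      intro F h
      apply hg0
      intro j
      obtain ⟨v, hv⟩ := h j (Finset.notMem_empty j)
      exact ⟨v, by rw [hv]⟩
    | insert j S hj ih =>
      intro F h
      have hup : ∀ p : C(UnitAddTorus (Fin d), ℂ),
          (fun l => ((Function.update F j p) l : UnitAddTorus (Fin d) → ℂ)) =
            Function.update (fun l => (F l : UnitAddTorus (Fin d) → ℂ)) j p := by
        intro p
        funext l
        by_cases hl : l = j
        · subst hl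
          rw [Function.update_self, Function.update_self]
        · rw [Function.update_of_ne hl, Function.update_of_ne hl]
      have hspan : ∀ p ∈ Submodule.span ℂ (Set.range (mFourier (d := Fin d))),
          Cv (haarT d) g
            (Function.update (fun l => (F l : UnitAddTorus (Fin d) → ℂ)) j p) := by
        intro p hp
        refine Submodule.span_induction (p := fun (p : C(UnitAddTorus (Fin d), ℂ)) _ =>
          Cv (haarT d) g
            (Function.update (fun l => (F l : UnitAddTorus (Fin d) → ℂ)) j p)) ?_ ?_ ?_ ?_ hp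
        · rintro _ ⟨v, rfl⟩
          rw [← hup]
          apply ih
          intro l hl
          by_cases hlj : l = j
          · subst hlj
            exact ⟨v, by rw [Function.update_self]⟩
          · rw [Function.update_of_ne hlj]
            exact h l (by
              rw [Finset.mem_insert]
              tauto)
        · exact Cv_zero
        · intro p q _ _ h1 h2
          exact Cv_add h1 h2
        · intro c p _ h1
          exact Cv_smul c h1
      have e : (fun l => (F l : UnitAddTorus (Fin d) → ℂ)) =
          Function.update (fun l => (F l : UnitAddTorus (Fin d) → ℂ)) j (F j) :=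
        (Function.update_eq_self j _).symm
      rw [e]
      apply Cv_closed_sup (fun l => hbd (F l))
      intro ε hε
      have hmem : F j ∈ (Submodule.span ℂ (Set.range (mFourier (d := Fin d)))).topologicalClosure := by
        rw [span_mFourier_closure_eq_top]
        exact Submodule.mem_top
      rw [← SetLike.mem_coe, Submodule.topologicalClosure_coe, Metric.mem_closure_iff] at hmem
      obtain ⟨p, hp, hgp⟩ := hmem ε hε
      refine ⟨p, fun x => ?_, hspan p hp⟩
      have h2 := ContinuousMap.dist_apply_le_dist (f := F j) (g := p) x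
      rw [dist_eq_norm] at h2
      exact h2.trans hgp.le
  exact key Finset.univ (fun j => ⟨F j, hF j⟩) fun j hj => absurd (Finset.mem_univ j) hj

/-- one continuous function -/
theorem single_cont {g : Fin m → ℤ → UnitAddTorus (Fin d) → UnitAddTorus (Fin d)} (hg0 : Chs g)
    (j : Fin m) {K : UnitAddTorus (Fin d) → ℝ} (hK : Continuous K) :
    ∀ᵐ x ∂(haarT d), ∃ L : ℝ, Tendsto (fun N => avr N fun n => K (g j n x)) atTop (𝓝 L) := by
  have h := Cv_cont hg0 (F := Function.update (fun _ _ => 1) j fun x => (K x : ℂ)) (by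
    intro l
    by_cases hl : l = j
    · subst hl
      rw [Function.update_self]
      exact Complex.continuous_ofReal.comp hK
    · rw [Function.update_of_ne hl]
      exact continuous_const)
  filter_upwards [h] with x hx
  obtain ⟨L, hL⟩ := hx
  refine ⟨L.re, ?_⟩
  have h1 := (Complex.continuous_re.tendsto L).comp hL
  refine h1.congr fun N => ?_
  have e0 : ∀ n : ℤ, ∏ l, (Function.update (fun _ _ => (1 : ℂ)) j fun x => (K x : ℂ)) l (g l n x) =
      ((K (g j n x) : ℝ) : ℂ) := by
    intro n
    rw [prod_update, Finset.prod_eq_one fun l _ => rfl, mul_one]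
  simp only [Function.comp_apply, av, avr, e0]
  have e : ((2 * N + 1 : ℕ) : ℂ)⁻¹ = (((2 * N + 1 : ℕ) : ℝ)⁻¹ : ℝ) := by push_cast; rfl
  rw [e, ← Complex.ofReal_sum, ← Complex.ofReal_mul, Complex.ofReal_re]

/-- bounded functions -/
theorem main_bdd {g : Fin m → ℤ → UnitAddTorus (Fin d) → UnitAddTorus (Fin d)} (hg0 : Chs g)
    (hmp : ∀ j n, MeasurePreserving (g j n) (haarT d) (haarT d))
    {F : Fin m → UnitAddTorus (Fin d) → ℂ} (hb : ∀ j, Bd (F j))
    (hF : ∀ j, (∀ᵐ x ∂(haarT d), ContinuousAt (F j) x) ∨
      (Measurable (F j) ∧ SingleGood (haarT d) (g j))) :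
    Cv (haarT d) g F := by
  have hbm : ∀ p : C(UnitAddTorus (Fin d), ℂ), Pool.Agent.H922R3.TA.BM p := fun p =>
    ⟨p.continuous.measurable, ‖p‖, fun x => ContinuousMap.norm_coe_le_norm p x⟩
  have hcb : ∀ u : UnitAddTorus (Fin d) → ℂ, Continuous u → Bd u := fun u hu =>
    ⟨‖(⟨u, hu⟩ : C(UnitAddTorus (Fin d), ℂ))‖, fun x =>
      ContinuousMap.norm_coe_le_norm (⟨u, hu⟩ : C(UnitAddTorus (Fin d), ℂ)) x⟩
  have hcr : ∀ u : UnitAddTorus (Fin d) → ℝ, Continuous u → ∃ C, ∀ x, |u x| ≤ C := fun u hu =>
    ⟨‖(⟨u, hu⟩ : C(UnitAddTorus (Fin d), ℝ))‖, fun x =>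
      ContinuousMap.norm_coe_le_norm (⟨u, hu⟩ : C(UnitAddTorus (Fin d), ℝ)) x⟩
  have key : ∀ S : Finset (Fin m), ∀ F : Fin m → UnitAddTorus (Fin d) → ℂ, (∀ j, Bd (F j)) →
      (∀ j ∈ S, (∀ᵐ x ∂(haarT d), ContinuousAt (F j) x) ∨
        (Measurable (F j) ∧ SingleGood (haarT d) (g j))) →
      (∀ j, j ∉ S → Continuous (F j)) → Cv (haarT d) g F := by
    intro S
    induction S using Finset.induction_on with
    | empty =>
      intro F _ _ h
      exact Cv_cont hg0 fun j => h j (Finset.notMem_empty j)
    | insert j S hj ih =>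
      intro F hb hg hc
      have hup : ∀ u : UnitAddTorus (Fin d) → ℂ, Continuous u →
          Cv (haarT d) g (Function.update F j u) := by
        intro u hu
        apply ih
        · intro l
          by_cases hl : l = j
          · subst hl
            rw [Function.update_self]
            exact hcb u hu
          · rw [Function.update_of_ne hl]
            exact hb l
        · intro l hl
          have hlj : l ≠ j := fun h => hj (h ▸ hl)
          rw [Function.update_of_ne hlj]
          exact hg l (Finset.mem_insert_of_mem hl)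
        · intro l hl
          by_cases hlj : l = j
          · subst hlj
            rw [Function.update_self]
            exact hu
          · rw [Function.update_of_ne hlj]
            exact hc l (by
              rw [Finset.mem_insert]
              tauto)
      rw [← Function.update_eq_self j F]
      rcases hg j (Finset.mem_insert_self j S) with h | ⟨hm, hs⟩
      · apply Cv_closed' hb (hmp j)
        intro ε hε
        obtain ⟨C, hC⟩ := hb j
        obtain ⟨u, K, hu, hK, huK, hKi⟩ := riem_complex (haarT d) hC h hε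
        exact ⟨u, K, hK.measurable, hcr K hK, huK, hKi, single_cont hg0 j hK, hup u hu⟩
      · apply Cv_closed hb (hmp j) hs ⟨hm, hb j⟩
        intro ε hε
        obtain ⟨p, _, hpf⟩ := Pool.Agent.H922R3.TA.trig_dense (f := F j) ⟨hm, hb j⟩ hε
        exact ⟨p, hbm p, hpf, hup p p.continuous⟩
  exact key Finset.univ F hb (fun j _ => hF j) fun j hj => absurd (Finset.mem_univ j) hj

theorem main_top {g : Fin m → ℤ → UnitAddTorus (Fin d) → UnitAddTorus (Fin d)} (hg0 : Chs g)
    (hmp : ∀ j n, MeasurePreserving (g j n) (haarT d) (haarT d))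
    {f : Fin m → UnitAddTorus (Fin d) → ℂ} (hf : ∀ j, MemLp (f j) ⊤ (haarT d))
    (hg : ∀ j, (∀ᵐ x ∂(haarT d), ContinuousAt (f j) x) ∨ SingleGood (haarT d) (g j)) :
    Cv (haarT d) g f := by
  have hbd : ∀ j, ∃ C : ℝ, 0 ≤ C ∧ ∀ᵐ x ∂(haarT d), ‖f j x‖ ≤ C := by
    intro j
    refine ⟨(eLpNormEssSup (f j) (haarT d)).toReal, ENNReal.toReal_nonneg, ?_⟩
    have h1 := (hf j).eLpNorm_lt_top
    rw [eLpNorm_exponent_top] at h1
    filter_upwards [ae_le_eLpNormEssSup (f := f j) (μ := haarT d)] with x hx
    have h2 := ENNReal.toReal_mono h1.ne hx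
    rwa [toReal_enorm] at h2
  choose C hC0 hC using hbd
  have hrep : ∀ j, ∃ F : UnitAddTorus (Fin d) → ℂ, Bd F ∧ (∀ᵐ x ∂(haarT d), f j x = F x) ∧
      ((∀ᵐ x ∂(haarT d), ContinuousAt F x) ∨
      (Measurable F ∧ SingleGood (haarT d) (g j))) := by
    intro j
    rcases hg j with h | h
    · refine ⟨fun x => clampC (C j) (f j x), ⟨_, fun x => clampC_bd (hC0 j) _⟩, ?_, Or.inl ?_⟩
      · filter_upwards [hC j] with x hx
        exact (clampC_eq hx).symm
      · filter_upwards [h] with x hx
        exact (clampC_cont _).continuousAt.comp hx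
    · have hm := (hf j).1.stronglyMeasurable_mk.measurable
      refine ⟨fun x => clampC (C j) ((hf j).1.mk (f j) x), ⟨_, fun x => clampC_bd (hC0 j) _⟩, ?_,
        Or.inr ⟨(clampC_cont _).measurable.comp hm, h⟩⟩
      filter_upwards [hC j, (hf j).1.ae_eq_mk] with x hx hx'
      rw [← hx', clampC_eq hx]
  choose F hF1 hF2 hF3 using hrep
  have hmain := main_bdd hg0 hmp hF1 hF3
  have heq : ∀ᵐ x ∂(haarT d), ∀ (j : Fin m) (n : ℤ), f j (g j n x) = F j (g j n x) := by
    rw [ae_all_iff]
    intro j
    rw [ae_all_iff]
    intro n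
    exact (hmp j n).quasiMeasurePreserving.ae (hF2 j)
  filter_upwards [hmain, heq] with x hx hx'
  obtain ⟨L, hL⟩ := hx
  refine ⟨L, hL.congr fun N => ?_⟩
  congr 1
  funext n
  exact Finset.prod_congr rfl fun j _ => (hx' j n).symm


end Pool.Agent.V5helper56.AN
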