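import Pool.Agent.H767R2.Weyl
import Pool.Agent.H922R3.TA.App

/-!
# The averages of `e(R(n))` converge for every real polynomial `R`
-/

set_option autoImplicit false

open Filter Topology Polynomial

namespace Pool.Agent.V5helper56.AN

theorem toCircle_ee (t : ℝ) :
    ((AddCircle.toCircle ((t : ℝ) : UnitAddCircle) : Circle) : ℂ) = Pool.Agent.H767R2.ee t := by
  rw [AddCircle.toCircle_apply_mk, Circle.coe_exp, Pool.Agent.H767R2.ee]
  congr 1
  push_cast
  ring

theorem const_avg (c : ℂ) : Tendsto (fun N : ℕ => (N : ℂ)⁻¹ * ∑ _n ∈ Finset.range N, c) atTop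
    (𝓝 c) := by
  apply tendsto_const_nhds.congr'
  filter_upwards [eventually_ge_atTop 1] with N hN
  have hN0 : (N : ℂ) ≠ 0 := by
    have : N ≠ 0 := by omega
    exact_mod_cast this
  rw [Finset.sum_const, Finset.card_range, nsmul_eq_mul, ← mul_assoc, inv_mul_cancel₀ hN0, one_mul]

/-- a polynomial with rational non-constant coefficients is periodic modulo one -/
theorem rat_periodic (R : ℝ[X]) (h : ∀ i, 1 ≤ i → ¬ Irrational (R.coeff i)) :
    ∃ q : ℕ, 1 ≤ q ∧ ∀ s k : ℕ, ∃ z : ℤ, R.eval ((s + q * k : ℕ) : ℝ) = R.eval (s : ℝ) + z := by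
  have h1 : (R - C (R.coeff 0)) ∈ Polynomial.lifts (algebraMap ℚ ℝ) := by
    rw [Polynomial.lifts_iff_coeff_lifts]
    intro i
    rcases Nat.eq_zero_or_pos i with h0 | h0
    · refine ⟨0, ?_⟩
      rw [h0]
      simp
    · have h2 := h i h0
      rw [Irrational, not_not] at h2
      obtain ⟨y, hy⟩ := h2
      refine ⟨y, ?_⟩
      rw [coeff_sub, coeff_C_of_ne_zero (by omega), sub_zero, ← hy]
      rfl
  obtain ⟨R', hR'⟩ := (Polynomial.mem_lifts _).1 h1
  obtain ⟨b, hb⟩ := IsLocalization.integerNormalization_map_to_map (nonZeroDivisors ℤ) R'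
  set S := IsLocalization.integerNormalization (nonZeroDivisors ℤ) R' with hS
  have hb0 : (b : ℤ) ≠ 0 := nonZeroDivisors.ne_zero b.2
  have he : ∀ n : ℤ, ((S.eval n : ℤ) : ℚ) = (b : ℤ) * R'.eval (n : ℚ) := by
    intro n
    have h3 := congrArg (Polynomial.eval (n : ℚ)) hb
    have h4 : (S.map (algebraMap ℤ ℚ)).eval (n : ℚ) = ((S.eval n : ℤ) : ℚ) := by
      have := Polynomial.eval_map_apply (p := S) (f := algebraMap ℤ ℚ) (x := n)
      simpa using this
    rw [h4] at h3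
    rw [h3, Polynomial.eval_smul, zsmul_eq_mul]
  have hR : ∀ n : ℤ, R.eval (n : ℝ) = R.coeff 0 + ((R'.eval (n : ℚ) : ℚ) : ℝ) := by
    intro n
    have h3 := congrArg (Polynomial.eval (n : ℝ)) hR'
    have h4 : (R'.map (algebraMap ℚ ℝ)).eval (n : ℝ) = ((R'.eval (n : ℚ) : ℚ) : ℝ) := by
      have := Polynomial.eval_map_apply (p := R') (f := algebraMap ℚ ℝ) (x := (n : ℚ))
      simpa using this
    rw [h4, eval_sub, eval_C] at h3
    linarith
  refine ⟨(b : ℤ).natAbs, Int.natAbs_pos.2 hb0, fun s k => ?_⟩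
  have hd : (b : ℤ) ∣ S.eval ((s : ℤ) + (b : ℤ).natAbs * k) - S.eval (s : ℤ) := by
    have h5 := Polynomial.sub_dvd_eval_sub ((s : ℤ) + (b : ℤ).natAbs * k) (s : ℤ) S
    rw [add_sub_cancel_left] at h5
    exact (Dvd.dvd.mul_right (Int.dvd_natAbs_self) _).trans h5
  obtain ⟨z, hz⟩ := hd
  refine ⟨z, ?_⟩
  have h6 : R'.eval (((s : ℤ) + (b : ℤ).natAbs * k : ℤ) : ℚ) = R'.eval ((s : ℤ) : ℚ) + z := by
    have h7 := he ((s : ℤ) + (b : ℤ).natAbs * k)
    have h8 := he (s : ℤ)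
    have h9 : ((S.eval ((s : ℤ) + (b : ℤ).natAbs * k) : ℤ) : ℚ) = ((S.eval (s : ℤ) : ℤ) : ℚ) +
        (b : ℤ) * z := by
      have : S.eval ((s : ℤ) + (b : ℤ).natAbs * k) = S.eval (s : ℤ) + b * z := by linarith
      rw [this]
      push_cast
      ring
    have hbq : ((b : ℤ) : ℚ) ≠ 0 := by exact_mod_cast hb0
    rw [h7, h8] at h9
    have h10 : ((b : ℤ) : ℚ) * R'.eval (((s : ℤ) + (b : ℤ).natAbs * k : ℤ) : ℚ) =
        ((b : ℤ) : ℚ) * (R'.eval ((s : ℤ) : ℚ) + z) := by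
      rw [h9]
      ring
    exact mul_left_cancel₀ hbq h10
  have h11 := hR ((s : ℤ) + (b : ℤ).natAbs * k)
  have h12 := hR (s : ℤ)
  rw [h6] at h11
  have e1 : (((s : ℤ) + (b : ℤ).natAbs * k : ℤ) : ℝ) = ((s + (b : ℤ).natAbs * k : ℕ) : ℝ) := by
    rw [Nat.cast_add, Nat.cast_mul, Int.cast_add, Int.cast_mul, Int.cast_natCast,
      Int.cast_natCast, Int.cast_natCast]
  have e2 : ((s : ℤ) : ℝ) = (s : ℝ) := by push_cast; rfl
  rw [e1] at h11
  rw [e2] at h12
  rw [h11, h12, Rat.cast_add, Rat.cast_intCast, add_assoc]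

/-- **Weyl**: convergence for every real polynomial -/
theorem weyl_conv (R : ℝ[X]) : ∃ L, Tendsto (fun N : ℕ => (N : ℂ)⁻¹ *
    ∑ n ∈ Finset.range N, ((AddCircle.toCircle ((R.eval (n : ℝ) : ℝ) : UnitAddCircle) : Circle) : ℂ))
    atTop (𝓝 L) := by
  by_cases h : ∃ i, 1 ≤ i ∧ Irrational (R.coeff i)
  · refine ⟨0, (Pool.Agent.H767R2.weyl_poly R h).congr fun N => ?_⟩
    rw [Pool.Agent.H767R2.cav, one_div]
    congr 1
    exact Finset.sum_congr rfl fun n _ => (toCircle_ee _).symm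
  · push Not at h
    obtain ⟨q, hq, hper⟩ := rat_periodic R h
    refine Pool.Agent.H922R3.TA.avg_classes (u := fun n : ℕ =>
      ((AddCircle.toCircle ((R.eval (n : ℝ) : ℝ) : UnitAddCircle) : Circle) : ℂ)) (C := 1)
      (fun n => (Circle.norm_coe _).le) hq fun s => ?_
    refine ⟨((AddCircle.toCircle ((R.eval (s : ℝ) : ℝ) : UnitAddCircle) : Circle) : ℂ),
      (const_avg _).congr fun N => ?_⟩
    congr 1
    apply Finset.sum_congr rfl
    intro k _
    obtain ⟨z, hz⟩ := hper s k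
    rw [hz]
    congr 2
    rw [AddCircle.coe_add]
    have : ((z : ℝ) : UnitAddCircle) = 0 := by
      have h1 := AddCircle.coe_zsmul (p := (1 : ℝ)) (n := z) (x := 1)
      rw [zsmul_eq_mul, mul_one, AddCircle.coe_period, smul_zero] at h1
      exact h1
    rw [this, add_zero]

end Pool.Agent.V5helper56.AN
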