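import Pool.Agent.V5helper56.AN.Aff
import Pool.Agent.V5helper56.AN.WeylC

/-!
# The phases
-/

set_option autoImplicit false

open Polynomial Filter Topology

namespace Pool.Agent.V5helper56.AN

open Pool.Agent.TH635.FB (mats freq)

variable {d D m : ℕ} {M : Type} [AddCommGroup M]

/-- `T_1^(P_1j(n)) ... T_D^(P_Dj(n))` -/
def gj (T : Fin D → Aff d M) (P : Fin D → Fin m → ℤ[X]) (j : Fin m) (n : ℤ) : Aff d M :=
  (List.ofFn fun i => T i ^ (P i j).eval n).prod

/-- the phase -/
def th (T : Fin D → Aff d M) (P : Fin D → Fin m → ℤ[X]) (v : Fin m → Fin d → ℤ) (n : ℤ) : M :=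
  ∑ j, pr (v j) (gj T P j n).c

theorem gj_A (T : Fin D → Aff d M) (P : Fin D → Fin m → ℤ[X]) (j : Fin m) (n : ℤ) :
    (gj T P j n).A = mats (fun i => (T i).A) P j n := by
  show Aff.lin (gj T P j n) = _
  rw [gj, map_list_prod, List.map_ofFn, mats]
  congr 2
  funext i
  rw [Function.comp_apply, map_zpow]
  rfl

/-- pairing with `v j` as a functional on `ℚ^d × ℚ` -/
def prL (w : Fin d → ℤ) : ((Fin d → ℚ) × ℚ) →ₗ[ℚ] ℚ where
  toFun p := pr w p.1
  map_add' p q := pr_add _ _ _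
  map_smul' t p := by
    show ∑ i, w i • (t * p.1 i) = t * ∑ i, w i • p.1 i
    rw [Finset.mul_sum]
    exact Finset.sum_congr rfl fun i _ => by
      rw [zsmul_eq_mul, zsmul_eq_mul]
      ring

/-- **the rational coordinates of the phase** are polynomials in `n` up to a linear function of the
frequency -/
theorem th_poly (T : Fin D → Aff d M) (P : Fin D → Fin m → ℤ[X]) (v : Fin m → Fin d → ℤ)
    (hT : Group.IsNilpotent (Subgroup.closure (Set.range T))) (φ : M →+ ℚ) :
    ∃ (x : Fin d → ℚ) (p : ℚ[X]), ∀ n : ℤ,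
      φ (th T P v n) = p.eval (n : ℚ) - pr (freq (fun i => (T i).A) P v n) x := by
  classical
  set H := Subgroup.closure (Set.range T) with hH
  let ρ : H →* Module.End ℚ ((Fin d → ℚ) × ℚ) := (Aff.rep φ).comp H.subtype
  let t : ((Fin d → ℚ) × ℚ) →ₗ[ℚ] ℚ := LinearMap.snd ℚ (Fin d → ℚ) ℚ
  have ht : ∀ g v, t (ρ g v) = t v := fun g v => rfl
  have ht0 : t ≠ 0 := by
    intro h
    have := LinearMap.congr_fun h (0, 1)
    exact one_ne_zero this
  obtain ⟨U, hU, ⟨u, huU, hu0⟩, hn⟩ := exists_unip (ρ := ρ) ht ht0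
  have hu0' : u.2 ≠ 0 := hu0
  set u' := (u.2)⁻¹ • u with hu'
  have hu'U : u' ∈ U := U.smul_mem _ huU
  have hu'2 : u'.2 = 1 := inv_mul_cancel₀ hu0'
  have hTH : ∀ i, T i ∈ H := fun i => Subgroup.subset_closure ⟨i, rfl⟩
  have hr : ∀ j, ∃ r : ℚ[X], ∀ n : ℤ, prL (v j) (Aff.rep φ (gj T P j n) u') = r.eval (n : ℚ) := by
    intro j
    have h1 := PS_orbit hU hn (List.ofFn fun i => ((⟨T i, hTH i⟩ : H), P i j)) hu'U
    obtain ⟨r, hr⟩ := PS_eval h1 (prL (v j))
    refine ⟨r, fun n => ?_⟩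
    rw [← hr n]
    congr 1
    show _ = Aff.rep φ (((List.map (fun q : H × ℤ[X] => q.1 ^ q.2.eval n)
      (List.ofFn fun i => ((⟨T i, hTH i⟩ : H), P i j))).prod : H) : Aff d M) u'
    congr 2
    rw [List.map_ofFn, gj, ← Subgroup.coe_subtype, map_list_prod, List.map_ofFn]
    rfl
  choose r hr using hr
  refine ⟨u'.1, ∑ j, r j, fun n => ?_⟩
  have e1 : ∀ j, prL (v j) (Aff.rep φ (gj T P j n) u') =
      pr (((mats (fun i => (T i).A) P j n : (Matrix (Fin d) (Fin d) ℤ)ˣ) :
        Matrix (Fin d) (Fin d) ℤ).transpose.mulVec (v j)) u'.1 + φ (pr (v j) (gj T P j n).c) := by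
    intro j
    show pr (v j) (Aff.rep φ (gj T P j n) u').1 = _
    rw [Aff.rep_apply, hu'2, one_smul, pr_add, pr_ma, gj_A, pr_map]
  rw [eval_finsetSum, freq, pr_sum, th, map_sum, ← Finset.sum_sub_distrib]
  apply Finset.sum_congr rfl
  intro j _
  rw [← hr j n, e1 j, add_sub_cancel_left]

/-- **the finite part of the phase is periodic** -/
theorem th_periodic (T : Fin D → Aff d M) (P : Fin D → Fin m → ℤ[X]) (v : Fin m → Fin d → ℤ)
    {F : Type} [AddCommGroup F] [Finite F] (σ : M →+ F) :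
    ∃ Q : ℕ, 1 ≤ Q ∧ ∀ (n : ℤ) (k : ℤ), σ (th T P v (n + Q * k)) = σ (th T P v n) := by
  classical
  have hfin : Finite (Equiv.Perm (Fin d → F)) := inferInstance
  refine ⟨Nat.card (Equiv.Perm (Fin d → F)), Nat.card_pos, fun n k => ?_⟩
  set Q := Nat.card (Equiv.Perm (Fin d → F)) with hQ
  have key : ∀ (j : Fin m) (n : ℤ), σ (pr (v j) (gj T P j n).c) =
      pr (v j) ((List.ofFn fun i => (Aff.perm (Aff.map σ (T i))) ^ (P i j).eval n).prod 0) := by
    intro j n
    rw [← pr_map]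
    congr 1
    have e : (List.ofFn fun i => (Aff.perm (Aff.map σ (T i))) ^ (P i j).eval n).prod =
        Aff.perm (Aff.map σ (gj T P j n)) := by
      rw [gj, map_list_prod, map_list_prod, List.map_ofFn, List.map_ofFn]
      congr 2
      funext i
      simp only [Function.comp_apply, map_zpow]
    rw [e, Aff.perm_apply, Aff.act, ma_zero, zero_add]
    rfl
  rw [th, th, map_sum, map_sum]
  apply Finset.sum_congr rfl
  intro j _
  rw [key, key]
  congr 3
  congr 1
  funext i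
  obtain ⟨z, hz⟩ := Polynomial.sub_dvd_eval_sub (n + Q * k) n (P i j)
  have h1 : (P i j).eval (n + Q * k) = (P i j).eval n + Q * (k * z) := by
    have : (P i j).eval (n + Q * k) - (P i j).eval n = Q * (k * z) := by
      rw [hz]
      ring
    linarith
  rw [h1, zpow_add, zpow_mul, zpow_natCast, pow_card_eq_one', one_zpow, mul_one]

theorem zeroC (z : ℤ) : ((z : ℝ) : UnitAddCircle) = 0 := by
  have h1 := AddCircle.coe_zsmul (p := (1 : ℝ)) (n := z) (x := 1)
  rw [zsmul_eq_mul, mul_one, AddCircle.coe_period, smul_zero] at h1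
  exact h1

/-- **the averages of the phases converge along the progressions where the frequency is
constant** -/
theorem th_conv [AddGroup.FG M] (T : Fin D → Aff d M) (P : Fin D → Fin m → ℤ[X])
    (v : Fin m → Fin d → ℤ) (hT : Group.IsNilpotent (Subgroup.closure (Set.range T)))
    (ι : M →+ UnitAddCircle) (q r : ℕ)
    (hc : ∀ n : ℕ, freq (fun i => (T i).A) P v ((r + q * n : ℕ) : ℤ) =
      freq (fun i => (T i).A) P v (r : ℤ)) :
    ∃ L, Tendsto (fun N : ℕ => (N : ℂ)⁻¹ * ∑ n ∈ Finset.range N,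
      ((AddCircle.toCircle (ι (th T P v ((r + q * n : ℕ) : ℤ))) : Circle) : ℂ)) atTop (𝓝 L) := by
  classical
  obtain ⟨s, κ, hκ, p, hp, e0, ⟨e⟩⟩ := AddCommGroup.equiv_free_prod_directSum_zmod M
  have hne : ∀ i : κ, NeZero (p i ^ e0 i) := fun i => ⟨pow_ne_zero _ (hp i).ne_zero⟩
  have hF : Finite (DirectSum κ fun i => ZMod (p i ^ e0 i)) :=
    Finite.of_equiv _ (DirectSum.addEquivProd fun i => ZMod (p i ^ e0 i)).symm.toEquiv
  -- the coordinates
  let co : Fin s → M →+ ℚ := fun l => (Int.castAddHom ℚ).comp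
    (((Finsupp.applyAddHom l).comp (AddMonoidHom.fst _ _)).comp e.toAddMonoidHom)
  let σ : M →+ DirectSum κ fun i => ZMod (p i ^ e0 i) :=
    (AddMonoidHom.snd _ _).comp e.toAddMonoidHom
  have hco : ∀ l y, co l y = (((e y).1 l : ℤ) : ℚ) := fun l y => rfl
  choose x pl hpl using fun l => th_poly T P v hT (co l)
  obtain ⟨Q, hQ, hper⟩ := th_periodic T P v σ
  choose a ha using fun l : Fin s => QuotientAddGroup.mk_surjective
    (ι (e.symm (Finsupp.single l 1, 0)))
  have hdec : ∀ y : M, ι y = ∑ l, (e y).1 l • ((a l : ℝ) : UnitAddCircle) +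
      ι (e.symm (0, σ y)) := by
    intro y
    have h1 : y = e.symm (∑ l, (e y).1 l • ((Finsupp.single l 1 : Fin s →₀ ℤ),
        (0 : DirectSum κ fun i => ZMod (p i ^ e0 i))) + (0, σ y)) := by
      apply e.injective
      rw [AddEquiv.apply_symm_apply]
      refine Prod.ext ?_ ?_
      · rw [Prod.fst_add, add_zero, Prod.fst_sum]
        ext l
        rw [Finsupp.finset_sum_apply, Finset.sum_eq_single l]
        · simp
        · intro b _ hb
          simp [Finsupp.single_apply, hb]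
        · intro h
          exact absurd (Finset.mem_univ l) h
      · rw [Prod.snd_add, Prod.snd_sum]
        simp [σ]
    conv_lhs => rw [h1]
    rw [map_add, map_add, map_sum, map_sum]
    congr 1
    apply Finset.sum_congr rfl
    intro l _
    rw [map_zsmul, map_zsmul]
    congr 1
    exact (ha l).symm
  -- the real polynomial
  set w := freq (fun i => (T i).A) P v (r : ℤ) with hw
  let Rl : Fin s → ℚ[X] := fun l => (pl l).comp (C (r : ℚ) + C (q : ℚ) * X) - C (pr w (x l))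
  have hRl : ∀ (l : Fin s) (n : ℕ), (((e (th T P v ((r + q * n : ℕ) : ℤ))).1 l : ℤ) : ℚ) =
      (Rl l).eval (n : ℚ) := by
    intro l n
    rw [← hco, hpl l, hc n]
    simp only [Rl, eval_sub, eval_comp, eval_add, eval_mul, eval_C, eval_X]
    congr 2
    push_cast
    ring
  let R : ℝ[X] := ∑ l, C (a l) * (Rl l).map (algebraMap ℚ ℝ)
  have hR : ∀ n : ℕ, ∑ l, (e (th T P v ((r + q * n : ℕ) : ℤ))).1 l • ((a l : ℝ) : UnitAddCircle) =
      ((R.eval (n : ℝ) : ℝ) : UnitAddCircle) := by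
    intro n
    have h1 : R.eval (n : ℝ) = ∑ l, ((e (th T P v ((r + q * n : ℕ) : ℤ))).1 l : ℤ) * a l := by
      simp only [R]
      rw [eval_finsetSum]
      apply Finset.sum_congr rfl
      intro l _
      have h2 : ((Rl l).map (algebraMap ℚ ℝ)).eval (n : ℝ) = (((Rl l).eval (n : ℚ) : ℚ) : ℝ) := by
        have := Polynomial.eval_map_apply (p := Rl l) (f := algebraMap ℚ ℝ) (x := (n : ℚ))
        simpa using this
      rw [eval_mul, eval_C, h2, ← hRl l n, Rat.cast_intCast, mul_comm]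
    rw [h1]
    have h3 := map_sum (QuotientAddGroup.mk' (AddSubgroup.zmultiples (1 : ℝ)))
      (fun l => (((e (th T P v ((r + q * n : ℕ) : ℤ))).1 l : ℤ) : ℝ) * a l) Finset.univ
    refine Eq.trans ?_ h3.symm
    apply Finset.sum_congr rfl
    intro l _
    show _ = (((((e (th T P v ((r + q * n : ℕ) : ℤ))).1 l : ℤ) : ℝ) * a l : ℝ) : UnitAddCircle)
    rw [← zsmul_eq_mul, AddCircle.coe_zsmul]
  refine Pool.Agent.H922R3.TA.avg_classes (u := fun n : ℕ =>
    ((AddCircle.toCircle (ι (th T P v ((r + q * n : ℕ) : ℤ))) : Circle) : ℂ)) (C := 1)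
    (fun n => (Circle.norm_coe _).le) hQ fun c => ?_
  obtain ⟨L, hL⟩ := weyl_conv (R.comp (C (c : ℝ) + C (Q : ℝ) * X))
  set ξ : ℂ := ((AddCircle.toCircle (ι (e.symm (0, σ (th T P v ((r + q * c : ℕ) : ℤ))))) :
    Circle) : ℂ) with hξ
  refine ⟨L * ξ, (hL.mul_const ξ).congr fun N => ?_⟩
  rw [mul_assoc, Finset.sum_mul]
  congr 1
  apply Finset.sum_congr rfl
  intro n _
  have e1 : σ (th T P v ((r + q * (c + Q * n) : ℕ) : ℤ)) =
      σ (th T P v ((r + q * c : ℕ) : ℤ)) := by
    rw [← hper ((r + q * c : ℕ) : ℤ) (q * n)]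
    congr 2
    push_cast
    ring
  rw [hdec, hR, e1, AddCircle.toCircle_add, Circle.coe_mul, ← hξ]
  congr 3
  congr 1
  rw [eval_comp]
  congr 1
  simp only [eval_add, eval_mul, eval_C, eval_X]
  push_cast
  ring

end Pool.Agent.V5helper56.AN
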