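import Pool.Agent.V5helper56.AN.Unip

/-!
# Polynomial orbits of unipotent actions
-/

set_option autoImplicit false

open Module Polynomial

namespace Pool.Agent.V5helper56.AN

/-- the binomial polynomials -/
noncomputable def ch (k : ℕ) : ℚ[X] := C ((k.factorial : ℚ)⁻¹) * descPochhammer ℚ k

theorem ch_zero (x : ℚ) : (ch 0).eval x = 1 := by
  simp [ch]

theorem ch_at_zero (k : ℕ) : (ch (k + 1)).eval 0 = 0 := by
  rw [ch, eval_mul, descPochhammer_ne_zero_eval_zero _ (Nat.succ_ne_zero k), mul_zero]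

theorem ch_pascal (k : ℕ) (x : ℚ) :
    (ch (k + 1)).eval (x + 1) = (ch (k + 1)).eval x + (ch k).eval x := by
  have h := congrArg (Polynomial.eval (x + 1)) (descPochhammer_succ_comp_X_sub_one (R := ℚ) k)
  simp only [eval_comp, eval_sub, eval_X, eval_one, add_sub_cancel_right, smul_eq_mul, eval_mul,
    eval_add, eval_natCast] at h
  simp only [ch, eval_mul, eval_C]
  have h1 : ((k + 1).factorial : ℚ) = (k + 1) * k.factorial := by
    rw [Nat.factorial_succ]
    push_cast
    ring
  have h2 : (k.factorial : ℚ) ≠ 0 := by exact_mod_cast k.factorial_ne_zero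
  have h3 : ((k : ℚ) + 1) ≠ 0 := by positivity
  rw [h1]
  field_simp
  linarith

variable {E : Type*} [AddCommGroup E] [Module ℚ E]
  {G : Type*} [Group G] {ρ : G →* Module.End ℚ E}

/-- the Newton expansion of `z ↦ ρ (g ^ z) u` -/
theorem zpow_unip {g : G} {u : E} {K : ℕ} (hK : ((ρ g - 1) ^ K) u = 0) (z : ℤ) :
    ρ (g ^ z) u = ∑ k ∈ Finset.range (K + 1), (ch k).eval (z : ℚ) • ((ρ g - 1) ^ k) u := by
  set F : ℤ → E := fun z => ∑ k ∈ Finset.range (K + 1), (ch k).eval (z : ℚ) •
    ((ρ g - 1) ^ k) u with hF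
  have hK1 : ((ρ g - 1) ^ (K + 1)) u = 0 := by
    rw [pow_succ', Module.End.mul_apply, hK, map_zero]
  have hF0 : F 0 = u := by
    rw [hF]
    simp only [Int.cast_zero]
    rw [Finset.sum_range_succ', ch_zero, pow_zero, Module.End.one_apply, one_smul]
    rw [Finset.sum_eq_zero (fun k _ => by rw [ch_at_zero, zero_smul]), zero_add]
  have hF1 : ∀ z : ℤ, F (z + 1) = ρ g (F z) := by
    intro z
    have e1 : ρ g (F z) = F z + (ρ g - 1) (F z) := by
      rw [LinearMap.sub_apply, Module.End.one_apply]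
      abel
    have e2 : (ρ g - 1) (F z) = ∑ k ∈ Finset.range (K + 1), (ch k).eval (z : ℚ) •
        ((ρ g - 1) ^ (k + 1)) u := by
      rw [hF]
      simp only
      rw [map_sum]
      apply Finset.sum_congr rfl
      intro k _
      rw [map_smul, pow_succ' (ρ g - 1) k, Module.End.mul_apply]
    have e3 : ∑ k ∈ Finset.range (K + 1), (ch k).eval (z : ℚ) • ((ρ g - 1) ^ (k + 1)) u =
        ∑ k ∈ Finset.range K, (ch k).eval (z : ℚ) • ((ρ g - 1) ^ (k + 1)) u := by
      rw [Finset.sum_range_succ, hK1, smul_zero, add_zero]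
    rw [e1, e2, e3, hF]
    simp only
    rw [Finset.sum_range_succ', Finset.sum_range_succ' (fun k => (ch k).eval (z : ℚ) •
      ((ρ g - 1) ^ k) u), ch_zero, ch_zero, add_right_comm, ← Finset.sum_add_distrib]
    congr 1
    apply Finset.sum_congr rfl
    intro k _
    rw [Int.cast_add, Int.cast_one, ch_pascal, add_smul]
  show ρ (g ^ z) u = F z
  induction z using Int.induction_on with
  | zero => rw [zpow_zero, rho_one, hF0]
  | succ n ih => rw [zpow_add_one, (Commute.refl g).zpow_left n |>.eq, rho_mul, ih, hF1]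
  | pred n ih =>
    have h1 : g ^ (-(n : ℤ) - 1) = g⁻¹ * g ^ (-(n : ℤ)) := by
      rw [zpow_sub_one, ((Commute.refl g).inv_right.zpow_left _).eq]
    have h2 := hF1 (-(n : ℤ) - 1)
    rw [sub_add_cancel] at h2
    rw [h1, rho_mul, ih, h2, ← rho_mul, inv_mul_cancel, rho_one]

variable (E) in
/-- polynomial sequences with values in `U` -/
def PS (U : Submodule ℚ E) : Submodule ℚ (ℤ → E) :=
  Submodule.span ℚ {f | ∃ p : ℚ[X], ∃ u ∈ U, f = fun n : ℤ => p.eval (n : ℚ) • u}

theorem PS_const {U : Submodule ℚ E} {u : E} (hu : u ∈ U) : (fun _ : ℤ => u) ∈ PS E U :=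
  Submodule.subset_span ⟨1, u, hu, by simp⟩

theorem PS_step {U : Submodule ℚ E} (hU : ∀ g, Inva ρ g U) (hn : ∀ g, U ≤ GE ρ g) (g : G)
    (P : ℤ[X]) {f : ℤ → E} (hf : f ∈ PS E U) :
    (fun n : ℤ => ρ (g ^ P.eval n) (f n)) ∈ PS E U := by
  induction hf using Submodule.span_induction with
  | mem f hf =>
    obtain ⟨p, u, hu, rfl⟩ := hf
    obtain ⟨K, hK⟩ := mem_GE.1 (hn g hu)
    have hpu : ∀ k : ℕ, ((ρ g - 1) ^ k) u ∈ U := by
      intro k
      induction k with
      | zero => simpa using hu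
      | succ k ih =>
        rw [pow_succ', Module.End.mul_apply]
        exact U.sub_mem (hU g _ ih) ih
    have e : (fun n : ℤ => ρ (g ^ P.eval n) (p.eval (n : ℚ) • u)) =
        ∑ k ∈ Finset.range (K + 1), fun n : ℤ =>
          (p * (ch k).comp (P.map (Int.castRingHom ℚ))).eval (n : ℚ) • ((ρ g - 1) ^ k) u := by
      funext n
      rw [Finset.sum_apply, map_smul, zpow_unip hK, Finset.smul_sum]
      apply Finset.sum_congr rfl
      intro k _
      have h3 : (P.map (Int.castRingHom ℚ)).eval (n : ℚ) = ((P.eval n : ℤ) : ℚ) := by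
        have := Polynomial.eval_map_apply (p := P) (f := Int.castRingHom ℚ) (x := n)
        simpa using this
      rw [eval_mul, eval_comp, h3, smul_smul]
    rw [e]
    exact Submodule.sum_mem _ fun k _ => Submodule.subset_span ⟨_, _, hpu k, rfl⟩
  | zero =>
    have e : (fun n : ℤ => ρ (g ^ P.eval n) ((0 : ℤ → E) n)) = 0 := by
      funext n
      simp
    rw [e]
    exact Submodule.zero_mem _
  | add f f' _ _ h h' =>
    have e : (fun n : ℤ => ρ (g ^ P.eval n) ((f + f') n)) =
        (fun n : ℤ => ρ (g ^ P.eval n) (f n)) + fun n : ℤ => ρ (g ^ P.eval n) (f' n) := by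
      funext n
      simp
    rw [e]
    exact Submodule.add_mem _ h h'
  | smul c f _ h =>
    have e : (fun n : ℤ => ρ (g ^ P.eval n) ((c • f) n)) =
        c • (fun n : ℤ => ρ (g ^ P.eval n) (f n)) := by
      funext n
      simp
    rw [e]
    exact Submodule.smul_mem _ c h

/-- the orbit of a vector of `U` under a polynomial sequence is polynomial -/
theorem PS_orbit {U : Submodule ℚ E} (hU : ∀ g, Inva ρ g U) (hn : ∀ g, U ≤ GE ρ g)
    (l : List (G × ℤ[X])) {u : E} (hu : u ∈ U) :
    (fun n : ℤ => ρ (l.map fun q => q.1 ^ q.2.eval n).prod u) ∈ PS E U := by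
  induction l with
  | nil =>
    simp only [List.map_nil, List.prod_nil, rho_one]
    exact PS_const hu
  | cons q l ih =>
    have h := PS_step hU hn q.1 q.2 ih
    simp only [List.map_cons, List.prod_cons, rho_mul]
    exact h

theorem PS_eval {U : Submodule ℚ E} {f : ℤ → E} (hf : f ∈ PS E U) (φ : E →ₗ[ℚ] ℚ) :
    ∃ r : ℚ[X], ∀ n : ℤ, φ (f n) = r.eval (n : ℚ) := by
  induction hf using Submodule.span_induction with
  | mem f hf =>
    obtain ⟨p, u, _, rfl⟩ := hf
    refine ⟨p * C (φ u), fun n => ?_⟩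
    rw [map_smul, smul_eq_mul, eval_mul, eval_C]
  | zero => exact ⟨0, fun n => by simp⟩
  | add f f' _ _ h h' =>
    obtain ⟨r, hr⟩ := h
    obtain ⟨r', hr'⟩ := h'
    exact ⟨r + r', fun n => by rw [Pi.add_apply, map_add, hr, hr', eval_add]⟩
  | smul c f _ h =>
    obtain ⟨r, hr⟩ := h
    exact ⟨C c * r, fun n => by rw [Pi.smul_apply, map_smul, hr, eval_mul, eval_C, smul_eq_mul]⟩

end Pool.Agent.V5helper56.AN
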