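import Pool.Agent.V5helper56.AN.Gen
import Pool.Agent.V5helper56.AN.Zero
import Pool.Agent.V5helper56.AN.Phase

/-!
# Nilpotent groups of affine maps of the torus
-/

set_option autoImplicit false

open Filter Topology MeasureTheory UnitAddTorus Polynomial

noncomputable section

namespace Pool.Agent.V5helper56.AN

open Pool.Agent.H922R3.TA (haarT toralMap mFourier_eq avg_classes)
open Pool.Agent.TH635.FB hiding Cv_cont single_cont main_bdd main_top

variable {d D m : ℕ}

section lift

variable (C : AddSubgroup UnitAddCircle)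

/-- the action of the affine maps with translations in `C` on the torus -/
def tact : Aff d C →* Equiv.Perm (UnitAddTorus (Fin d)) := Aff.perm.comp (Aff.map C.subtype)

theorem tact_apply (a : Aff d C) (x : UnitAddTorus (Fin d)) :
    tact C a x = ma (a.A : Matrix (Fin d) (Fin d) ℤ) x + fun k => (a.c k : UnitAddCircle) := rfl

theorem zsmul_faithful {z : ℤ} (h : ∀ t : UnitAddCircle, z • t = 0) : z = 0 := by
  by_contra hz
  have hz' : (z : ℝ) ≠ 0 := by exact_mod_cast hz
  have h1 := h ((1 / (2 * z) : ℝ) : UnitAddCircle)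
  rw [← AddCircle.coe_zsmul, zsmul_eq_mul, AddCircle.coe_eq_zero_iff] at h1
  obtain ⟨n, hn⟩ := h1
  rw [zsmul_eq_mul, mul_one] at hn
  have h2 : (z : ℝ) * (1 / (2 * z)) = 1 / 2 := by field_simp
  rw [h2] at hn
  have h3 : ((2 * n : ℤ) : ℝ) = ((1 : ℤ) : ℝ) := by
    push_cast
    linarith
  have h4 : 2 * n = 1 := by exact_mod_cast h3
  omega

theorem tact_inj : Function.Injective (tact (d := d) C) := by
  rw [injective_iff_map_eq_one]
  intro a ha
  have hx : ∀ x : UnitAddTorus (Fin d),
      ma (a.A : Matrix (Fin d) (Fin d) ℤ) x + (fun k => (a.c k : UnitAddCircle)) = x := by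
    intro x
    have := DFunLike.congr_fun ha x
    exact this
  have hc : (fun k => (a.c k : UnitAddCircle)) = 0 := by
    have := hx 0
    rwa [ma_zero, zero_add] at this
  apply Aff.ext
  · apply Units.ext
    ext i k
    have h1 : ∀ t : UnitAddCircle, ((a.A : Matrix (Fin d) (Fin d) ℤ) i k -
        (1 : Matrix (Fin d) (Fin d) ℤ) i k) • t = 0 := by
      intro t
      have h2 := congrFun (hx (Pi.single k t)) i
      rw [hc, add_zero] at h2
      have h3 : ∀ B : Matrix (Fin d) (Fin d) ℤ, ma B (Pi.single k t) i = B i k • t := by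
        intro B
        show ∑ l, B i l • (Pi.single k t : Fin d → UnitAddCircle) l = _
        rw [Finset.sum_eq_single k]
        · rw [Pi.single_eq_same]
        · intro l _ hl
          rw [Pi.single_eq_of_ne hl, smul_zero]
        · intro h
          exact absurd (Finset.mem_univ k) h
      have h4 : ma (1 : Matrix (Fin d) (Fin d) ℤ) (Pi.single k t) i =
          (Pi.single k t : Fin d → UnitAddCircle) i := by rw [ma_one]
      rw [h3] at h2 h4
      rw [sub_smul, h2, h4, sub_self]
    exact sub_eq_zero.1 (zsmul_faithful h1)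
  · funext k
    exact Subtype.ext (congrFun hc k)

theorem tact_list (T : Fin D → Aff d C) (P : Fin D → Fin m → ℤ[X]) (j : Fin m) (n : ℤ) :
    tact C (gj T P j n) = (List.ofFn fun i => tact C (T i) ^ (P i j).eval n).prod := by
  rw [gj, map_list_prod, List.map_ofFn]
  congr 2
  funext i
  rw [Function.comp_apply, map_zpow]

/-- nilpotency is inherited by the lift -/
theorem lift_nil (T : Fin D → Aff d C)
    (h : Group.IsNilpotent (Subgroup.closure (Set.range fun i => tact C (T i)))) :
    Group.IsNilpotent (Subgroup.closure (Set.range T)) := by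
  have e1 : (Subgroup.closure (Set.range T)).map (tact C) =
      Subgroup.closure (Set.range fun i => tact C (T i)) := by
    rw [MonoidHom.map_closure, ← Set.range_comp]
    rfl
  rw [← e1] at h
  exact (Group.isNilpotent_congr
    ((Subgroup.closure (Set.range T)).equivMapOfInjective _ (tact_inj C))).2 h

variable {C}

theorem mFourier_aff (v : Fin d → ℤ) (a : Aff d C) (x : UnitAddTorus (Fin d)) :
    mFourier v (tact C a x) =
      mFourier ((a.A : Matrix (Fin d) (Fin d) ℤ).transpose.mulVec v) x *
        ((AddCircle.toCircle (C.subtype (pr v a.c)) : Circle) : ℂ) := by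
  rw [mFourier_eq, mFourier_eq, ← Circle.coe_mul, ← AddCircle.toCircle_add]
  congr 2
  show pr v (tact C a x) = pr _ x + _
  rw [tact_apply, pr_add, pr_ma, ← pr_map]
  rfl

theorem prod_chars' (T : Fin D → Aff d C) (P : Fin D → Fin m → ℤ[X]) (v : Fin m → Fin d → ℤ)
    (n : ℤ) (x : UnitAddTorus (Fin d)) :
    ∏ j, mFourier (v j) (tact C (gj T P j n) x) =
      mFourier (freq (fun i => (T i).A) P v n) x *
        ((AddCircle.toCircle (C.subtype (th T P v n)) : Circle) : ℂ) := by
  rw [freq, ← Pool.Agent.H922R3.TA.mFourier_sum, th, map_sum, Pool.Agent.H922R3.TA.toCircle_sum]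
  have h := map_prod Circle.coeHom (fun j => AddCircle.toCircle (C.subtype
    (pr (v j) (gj T P j n).c))) Finset.univ
  rw [show ((∏ j, AddCircle.toCircle (C.subtype (pr (v j) (gj T P j n).c)) : Circle) : ℂ) =
    ∏ j, ((AddCircle.toCircle (C.subtype (pr (v j) (gj T P j n).c)) : Circle) : ℂ) from h,
    ← Finset.prod_mul_distrib]
  apply Finset.prod_congr rfl
  intro j _
  rw [mFourier_aff, gj_A]

theorem one_side' [AddGroup.FG C] (T : Fin D → Aff d C) (P : Fin D → Fin m → ℤ[X])
    (v : Fin m → Fin d → ℤ) (hT : Group.IsNilpotent (Subgroup.closure (Set.range T))) :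
    ∀ᵐ x ∂(haarT d), ∃ L, Tendsto (fun N : ℕ => (N : ℂ)⁻¹ * ∑ n ∈ Finset.range N,
      ∏ j, mFourier (v j) (tact C (gj T P j n) x)) atTop (𝓝 L) := by
  obtain ⟨q, hq, hcl⟩ := freq_classes (fun i => (T i).A) P v
  have hr : ∀ r : ℕ, ∀ᵐ x ∂(haarT d), ∃ L, Tendsto (fun N : ℕ => (N : ℂ)⁻¹ *
      ∑ n ∈ Finset.range N, ∏ j, mFourier (v j) (tact C (gj T P j ((r + q * n : ℕ) : ℤ)) x))
      atTop (𝓝 L) := by
    intro r
    rcases hcl r with h | ⟨K, hK⟩
    · obtain ⟨L, hL⟩ := th_conv T P v hT C.subtype q r h
      refine Eventually.of_forall fun x => ⟨mFourier (freq (fun i => (T i).A) P v (r : ℤ)) x * L,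
        (hL.const_mul _).congr fun N => ?_⟩
      rw [mul_left_comm, Finset.mul_sum]
      congr 1
      apply Finset.sum_congr rfl
      intro n _
      rw [prod_chars', h n]
    · filter_upwards [ae_zero (fun n => ((AddCircle.toCircle (C.subtype
        (th T P v ((r + q * n : ℕ) : ℤ))) : Circle) : ℂ)) (fun n => (Circle.norm_coe _).le)
        (fun n => freq (fun i => (T i).A) P v ((r + q * n : ℕ) : ℤ)) hK] with x hx
      refine ⟨0, hx.congr fun N => ?_⟩
      congr 1
      apply Finset.sum_congr rfl
      intro n _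
      rw [prod_chars', mul_comm]
  filter_upwards [ae_all_iff.mpr hr] with x hx
  exact avg_classes (u := fun n : ℕ => ∏ j, mFourier (v j) (tact C (gj T P j n) x)) (C := 1)
    (fun n => by
      rw [norm_prod]
      exact Finset.prod_le_one (fun j _ => norm_nonneg _) fun j _ => norm_mF _ _) hq hx

theorem gj_neg (T : Fin D → Aff d C) (P : Fin D → Fin m → ℤ[X]) (j : Fin m) (n : ℤ) :
    gj T (fun i j => (P i j).comp (-X)) j n = gj T P j (-n) := by
  simp only [gj, eval_comp, eval_neg, eval_X]

theorem chs [AddGroup.FG C] (T : Fin D → Aff d C) (P : Fin D → Fin m → ℤ[X])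
    (hT : Group.IsNilpotent (Subgroup.closure (Set.range T))) :
    Chs fun (j : Fin m) (n : ℤ) => (tact C (gj T P j n) : UnitAddTorus (Fin d) → _) := by
  intro F hF
  choose v hv using hF
  filter_upwards [one_side' T P v hT, one_side' T (fun i j => (P i j).comp (-X)) v hT] with x h1 h2
  obtain ⟨L, hL⟩ := h1
  obtain ⟨L', hL'⟩ := h2
  refine ⟨(L + L') / 2, ?_⟩
  have h := av_of_sides (u := fun n : ℤ => ∏ j, mFourier (v j) (tact C (gj T P j n) x)) (C := 1)
    (by
      rw [norm_prod]
      exact Finset.prod_le_one (fun j _ => norm_nonneg _) fun j _ => norm_mF _ _) hL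
    (hL'.congr fun N => by
      congr 1
      exact Finset.sum_congr rfl fun n _ => Finset.prod_congr rfl fun j _ => by rw [gj_neg])
  refine h.congr fun N => ?_
  congr 1
  funext n
  exact Finset.prod_congr rfl fun j _ => by rw [hv j]

end lift

/-- translations preserve Haar measure -/
theorem tact_mp (C : AddSubgroup UnitAddCircle) (a : Aff d C) :
    MeasurePreserving (tact C a) (haarT d) (haarT d) := by
  have h1 : MeasurePreserving (toralMap (a.A : Matrix (Fin d) (Fin d) ℤ)) (haarT d) (haarT d) :=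
    toralAut_mp a.A
  have h2 : MeasurePreserving (fun x : UnitAddTorus (Fin d) =>
      x + fun k => (a.c k : UnitAddCircle)) (haarT d) (haarT d) :=
    measurePreserving_add_right (haarT d) _
  exact h2.comp h1

/-- a linear sequence is `SingleGood` -/
theorem single_pow {b c : Equiv.Perm (UnitAddTorus (Fin d))}
    (hb : MeasurePreserving b (haarT d) (haarT d))
    (hb' : MeasurePreserving b.symm (haarT d) (haarT d))
    (hc : MeasurePreserving c (haarT d) (haarT d)) :
    SingleGood (haarT d) fun n => ((b ^ n * c : Equiv.Perm (UnitAddTorus (Fin d))) :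
      UnitAddTorus (Fin d) → _) := by
  rintro G hG ⟨C, hC⟩
  have b1 := Pool.Agent.H165R3.BPE.birkhoff hb G hG C hC
  have b2 := Pool.Agent.H165R3.BPE.birkhoff hb' G hG C hC
  have c1 := hc.quasiMeasurePreserving.ae b1
  have c2 := hc.quasiMeasurePreserving.ae b2
  filter_upwards [c1, c2] with x h1 h2
  refine ⟨_, avr_of_sides (u := fun n => G ((b ^ n * c : Equiv.Perm (UnitAddTorus (Fin d))) x))
    (h1.congr fun N => ?_) (h2.congr fun N => ?_)⟩
  · refine congrArg _ (Finset.sum_congr rfl fun k _ => ?_)
    rw [zpow_natCast, Equiv.Perm.mul_apply, ← Equiv.Perm.iterate_eq_pow]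
  · congr 1
    apply Finset.sum_congr rfl
    intro k _
    rw [zpow_neg, zpow_natCast, ← inv_pow, Equiv.Perm.mul_apply,
      ← Equiv.Perm.iterate_eq_pow (b⁻¹) k]
    rfl

/-- **the main theorem** -/
theorem affine_nilpotent (T : Fin D → Equiv.Perm (UnitAddTorus (Fin d)))
    (hT : ∀ i, ∃ (A : (Matrix (Fin d) (Fin d) ℤ)ˣ) (c : UnitAddTorus (Fin d)), ∀ x k,
      T i x k = ∑ l, (A : Matrix (Fin d) (Fin d) ℤ) k l • x l + c k)
    (hnil : Group.IsNilpotent (Subgroup.closure (Set.range T)))
    (P : Fin D → Fin m → ℤ[X]) {f : Fin m → UnitAddTorus (Fin d) → ℂ}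
    (hf : ∀ j, MemLp (f j) ⊤ (haarT d))
    (hg : ∀ j, (∀ᵐ x ∂(haarT d), ContinuousAt (f j) x) ∨
      (∃ b c : Equiv.Perm (UnitAddTorus (Fin d)), ∀ n : ℤ,
        (List.ofFn fun i => T i ^ (P i j).eval n).prod = b ^ n * c) ∨
      SingleGood (haarT d) fun n => (List.ofFn fun i => T i ^ (P i j).eval n).prod) :
    Cv (haarT d) (fun (j : Fin m) (n : ℤ) =>
      ((List.ofFn fun i => T i ^ (P i j).eval n).prod : Equiv.Perm (UnitAddTorus (Fin d)))) f := by
  choose A c hAc using hT
  set C : AddSubgroup UnitAddCircle := AddSubgroup.closure (Set.range fun p : Fin D × Fin d =>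
    c p.1 p.2) with hC
  have hCm : ∀ i k, c i k ∈ C := fun i k => AddSubgroup.subset_closure ⟨(i, k), rfl⟩
  have hfg : AddGroup.FG C := by
    rw [AddGroup.fg_iff_addSubgroup_fg]
    refine ⟨(Set.finite_range fun p : Fin D × Fin d => c p.1 p.2).toFinset, ?_⟩
    rw [Set.Finite.coe_toFinset]
  let S : Fin D → Aff d C := fun i => ⟨A i, fun k => ⟨c i k, hCm i k⟩⟩
  have hS : ∀ i, tact C (S i) = T i := by
    intro i
    ext1 x
    funext k
    exact (hAc i x k).symm
  have hST : (fun i => tact C (S i)) = T := funext hS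
  have hnilS : Group.IsNilpotent (Subgroup.closure (Set.range S)) := by
    apply lift_nil C S
    rw [hST]
    exact hnil
  have hl : ∀ (j : Fin m) (n : ℤ), (List.ofFn fun i => T i ^ (P i j).eval n).prod =
      tact C (gj S P j n) := by
    intro j n
    rw [tact_list]
    simp only [hS]
  simp only [hl] at hg ⊢
  refine main_top (chs S P hnilS) (fun j n => tact_mp C _) hf fun j => ?_
  rcases hg j with h | ⟨b, c', h⟩ | h
  · exact Or.inl h
  · right
    have hc' : c' = tact C (gj S P j 0) := by
      have := h 0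
      rw [zpow_zero, one_mul] at this
      exact this.symm
    have hb : b = tact C (gj S P j 1 * (gj S P j 0)⁻¹) := by
      have := h 1
      rw [zpow_one] at this
      rw [map_mul, map_inv, this, ← hc', mul_inv_cancel_right]
    have hb' : b.symm = tact C (gj S P j 1 * (gj S P j 0)⁻¹)⁻¹ := by
      rw [map_inv, ← hb]
      rfl
    have e : (fun n : ℤ => (tact C (gj S P j n) : UnitAddTorus (Fin d) → UnitAddTorus (Fin d))) =
        fun n => ((b ^ n * c' : Equiv.Perm (UnitAddTorus (Fin d))) :
          UnitAddTorus (Fin d) → UnitAddTorus (Fin d)) := by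
      funext n
      rw [h n]
    rw [e]
    refine single_pow ?_ ?_ ?_
    · rw [hb]
      exact tact_mp C _
    · rw [hb']
      exact tact_mp C _
    · rw [hc']
      exact tact_mp C _
  · exact Or.inr h

end Pool.Agent.V5helper56.AN
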