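import Mathlib

/-!
# Nilpotent groups of linear maps with an invariant functional

Let a nilpotent group `G` act on a finite dimensional space `E`, and let `t ≠ 0` be a `G`-invariant
functional. Then there is a `G`-invariant subspace `U`, not contained in `ker t`, on which all the
elements of `G` act unipotently. (For affine actions: a nilpotent group of affine maps has an
invariant affine subspace on which it acts unipotently.)
-/

set_option autoImplicit false

open Module Polynomial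

namespace Pool.Agent.V5helper56.AN

section uni

variable {K : Type*} [Field K] {E : Type*} [AddCommGroup E] [Module K E]
  {G : Type*} [Group G] (ρ : G →* Module.End K E)

/-- the vectors on which `ρ g` acts unipotently -/
def GE (g : G) : Submodule K E := Module.End.maxGenEigenspace (ρ g) (1 : K)

variable {ρ}

theorem mem_GE {g : G} {v : E} : v ∈ GE ρ g ↔ ∃ k : ℕ, ((ρ g - 1) ^ k) v = 0 := by
  rw [GE, Module.End.mem_maxGenEigenspace, one_smul]

theorem GE_of_sub {g : G} {v : E} (h : ρ g v - v ∈ GE ρ g) : v ∈ GE ρ g := by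
  obtain ⟨k, hk⟩ := mem_GE.1 h
  refine mem_GE.2 ⟨k + 1, ?_⟩
  rw [pow_succ, Module.End.mul_apply]
  exact hk

theorem exists_step {T : Module.End K E} {A B : Submodule K E} (hAB : A < B)
    (hB : ∀ v ∈ B, T v ∈ B) (hn : ∀ v ∈ B, ∃ k : ℕ, (T ^ k) v = 0) :
    ∃ u ∈ B, u ∉ A ∧ T u ∈ A := by
  classical
  obtain ⟨v, hvB, hvA⟩ := SetLike.exists_of_lt hAB
  have hex : ∃ k : ℕ, (T ^ k) v ∈ A := by
    obtain ⟨k, hk⟩ := hn v hvB
    exact ⟨k, by rw [hk]; exact A.zero_mem⟩
  have hpB : ∀ k : ℕ, (T ^ k) v ∈ B := by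
    intro k
    induction k with
    | zero => simpa using hvB
    | succ k ih =>
      rw [pow_succ', Module.End.mul_apply]
      exact hB _ ih
  have h1 := Nat.find_spec hex
  have h0 : Nat.find hex ≠ 0 := by
    intro h
    rw [h] at h1
    exact hvA (by simpa using h1)
  obtain ⟨k, hk⟩ := Nat.exists_eq_succ_of_ne_zero h0
  refine ⟨(T ^ k) v, hpB k, Nat.find_min hex (by omega), ?_⟩
  rw [hk, Nat.succ_eq_add_one, pow_succ', Module.End.mul_apply] at h1
  exact h1

variable (ρ) in
/-- invariant under `ρ h` -/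
def Inva (h : G) (W : Submodule K E) : Prop := ∀ v ∈ W, ρ h v ∈ W

theorem rho_mul (a b : G) (v : E) : ρ (a * b) v = ρ a (ρ b v) := by
  rw [map_mul, Module.End.mul_apply]

theorem rho_one (v : E) : ρ 1 v = v := by
  rw [map_one, Module.End.one_apply]

/-- the commutator `z⁻¹ h⁻¹ z h` -/
theorem comm_mem {n : ℕ} {z : G} (hz : z ∈ Subgroup.upperCentralSeries G (n + 1)) (h : G) :
    z⁻¹ * h⁻¹ * z * h ∈ Subgroup.upperCentralSeries G n := by
  have h1 := Subgroup.mem_upperCentralSeries_succ_iff.1 (inv_mem hz) h⁻¹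
  rwa [commutatorElement_def, inv_inv, inv_inv] at h1

/-- the commutator `g⁻¹ h⁻¹ g h` -/
theorem comm_mem' {n : ℕ} {h : G} (hh : h ∈ Subgroup.upperCentralSeries G (n + 1)) (g : G) :
    g⁻¹ * h⁻¹ * g * h ∈ Subgroup.upperCentralSeries G n := by
  have h1 := inv_mem (comm_mem hh g)
  have e : (h⁻¹ * g⁻¹ * h * g)⁻¹ = g⁻¹ * h⁻¹ * g * h := by group
  rwa [e] at h1

variable [FiniteDimensional K E]

/-- `g` and a member `Z_i` of the upper central series acting unipotently. -/
theorem kolchin {i : ℕ} {g : G} {W : Submodule K E} (hg : W ≤ GE ρ g)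
    (hN : ∀ c ∈ Subgroup.upperCentralSeries G i, W ≤ GE ρ c)
    (hgs : Inva ρ g W) (hNs : ∀ c ∈ Subgroup.upperCentralSeries G i, Inva ρ c W)
    {c : G} (hc : c ∈ Subgroup.upperCentralSeries G i) : W ≤ GE ρ (g * c) := by
  classical
  -- good submodules
  let S : Set (Submodule K E) := {A | A ≤ W ∧ A ≤ GE ρ (g * c) ∧ Inva ρ g A ∧
    ∀ h ∈ Subgroup.upperCentralSeries G i, Inva ρ h A}
  have hS : (⊥ : Submodule K E) ∈ S := by
    refine ⟨bot_le, bot_le, ?_, ?_⟩
    · intro v hv
      rw [Submodule.mem_bot] at hv ⊢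
      rw [hv, map_zero]
    · intro h _ v hv
      rw [Submodule.mem_bot] at hv ⊢
      rw [hv, map_zero]
  obtain ⟨A, ⟨hAW, hAG, hAg, hAN⟩, hAmax⟩ := WellFounded.has_min
    (wellFounded_gt (α := Submodule K E)) S ⟨_, hS⟩
  by_cases hAW' : A = W
  · rw [← hAW']
    exact hAG
  exfalso
  have hlt : A < W := lt_of_le_of_ne hAW hAW'
  let R : Set (Submodule K E) := {B | A < B ∧ B ≤ W ∧ Inva ρ g B ∧
    ∀ h ∈ Subgroup.upperCentralSeries G i, Inva ρ h B}
  obtain ⟨B, ⟨hAB, hBW, hBg, hBN⟩, hBmin⟩ := WellFounded.has_min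
    (wellFounded_lt (α := Submodule K E)) R ⟨W, hlt, le_rfl, hgs, hNs⟩
  -- a lemma on the minimal submodule
  have hmin : ∀ z : G, Inva ρ z B → B ≤ GE ρ z →
      (∀ v ∈ B, ρ z v - v ∈ A → ρ z (ρ g v) - ρ g v ∈ A) →
      (∀ h ∈ Subgroup.upperCentralSeries G i, ∀ v ∈ B, ρ z v - v ∈ A →
        ρ z (ρ h v) - ρ h v ∈ A) → Inva ρ z A → ∀ v ∈ B, ρ z v - v ∈ A := by
    intro z hzB hzu h1 h2 hzA
    let B' : Submodule K E := B ⊓ A.comap (ρ z - 1)
    have hB' : ∀ v, v ∈ B' ↔ v ∈ B ∧ ρ z v - v ∈ A := fun v => Iff.rfl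
    have hAB' : A ≤ B' := fun v hv => (hB' v).2 ⟨hAB.le hv, A.sub_mem (hzA v hv) hv⟩
    obtain ⟨u, huB, huA, hu⟩ := exists_step (T := ρ z - 1) hAB
      (fun v hv => B.sub_mem (hzB v hv) hv) (fun v hv => mem_GE.1 (hzu hv))
    have hAB'' : A < B' := lt_of_le_of_ne hAB' fun h => huA (by
      rw [h]
      exact (hB' u).2 ⟨huB, hu⟩)
    have hBR : B' ∈ R := by
      refine ⟨hAB'', inf_le_left.trans hBW, ?_, ?_⟩
      · intro v hv
        obtain ⟨hv1, hv2⟩ := (hB' v).1 hv
        exact (hB' _).2 ⟨hBg v hv1, h1 v hv1 hv2⟩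
      · intro h hh v hv
        obtain ⟨hv1, hv2⟩ := (hB' v).1 hv
        exact (hB' _).2 ⟨hBN h hh v hv1, h2 h hh v hv1 hv2⟩
    have hnlt := hBmin B' hBR
    have hle : B' ≤ B := inf_le_left
    have heq : B' = B := by
      by_contra hne
      exact hnlt (lt_of_le_of_ne hle hne)
    intro v hv
    rw [← heq] at hv
    exact ((hB' v).1 hv).2
  -- the central series acts trivially modulo `A`
  have hZ : ∀ l, l ≤ i → ∀ z ∈ Subgroup.upperCentralSeries G l, ∀ v ∈ B, ρ z v - v ∈ A := by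
    intro l
    induction l with
    | zero =>
      intro _ z hz v _
      rw [Subgroup.upperCentralSeries_zero, Subgroup.mem_bot] at hz
      rw [hz, rho_one, sub_self]
      exact A.zero_mem
    | succ l ih =>
      intro hl z hz
      have hzi : z ∈ Subgroup.upperCentralSeries G i :=
        Subgroup.upperCentralSeries_mono G hl hz
      have key : ∀ h : G, Inva ρ h A → ∀ v ∈ B, ρ z v - v ∈ A → ρ z (ρ h v) - ρ h v ∈ A := by
        intro h hhA v hv hzv
        have e : z * h = h * (z * (z⁻¹ * h⁻¹ * z * h)) := by group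
        have hc' := ih (by omega) _ (comm_mem hz h) v hv
        rw [← rho_mul, e, rho_mul, rho_mul]
        set w := ρ (z⁻¹ * h⁻¹ * z * h) v with hw
        have h3 : ρ z w - v ∈ A := by
          have h4 := A.add_mem (hAN z hzi _ hc') hzv
          rw [map_sub] at h4
          have e2 : ρ z w - ρ z v + (ρ z v - v) = ρ z w - v := by abel
          rwa [e2] at h4
        have h5 := hhA _ h3
        rwa [map_sub] at h5
      exact hmin z (hBN z hzi) (hBW.trans (hN z hzi)) (key g hAg)
        (fun h hh => key h (hAN h hh)) (hAN z hzi)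
  have hgB : ∀ v ∈ B, ρ g v - v ∈ A := by
    refine hmin g hBg (hBW.trans hg) ?_ ?_ hAg
    · intro v _ hv
      have h1 := hAg _ hv
      rwa [map_sub] at h1
    · intro h hh v hvB hv
      have h1 := hZ i le_rfl h hh v hvB
      have h2 := hAg _ h1
      rw [map_sub] at h2
      have h3 := A.sub_mem (A.add_mem h2 hv) h1
      have e : ρ g (ρ h v) - ρ g v + (ρ g v - v) - (ρ h v - v) = ρ g (ρ h v) - ρ h v := by abel
      rwa [e] at h3
  have hBS : B ∈ S := by
    refine ⟨hBW, ?_, hBg, hBN⟩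
    intro v hv
    apply GE_of_sub
    apply hAG
    have h1 := hAg _ (hZ i le_rfl c hc v hv)
    rw [map_sub] at h1
    have h2 := A.add_mem h1 (hgB v hv)
    rw [rho_mul]
    have e : ρ g (ρ c v) - ρ g v + (ρ g v - v) = ρ g (ρ c v) - v := by abel
    rwa [e] at h2
  exact hAmax B hBS hAB

/-- conjugation -/
theorem GE_conj {g h : G} {v : E} (hv : v ∈ GE ρ (h⁻¹ * g * h)) : ρ h v ∈ GE ρ g := by
  obtain ⟨k, hk⟩ := mem_GE.1 hv
  refine mem_GE.2 ⟨k, ?_⟩
  have e : ∀ k : ℕ, ∀ v : E, ((ρ g - 1) ^ k) (ρ h v) = ρ h (((ρ (h⁻¹ * g * h) - 1) ^ k) v) := by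
    intro k
    induction k with
    | zero => intro v; simp
    | succ k ih =>
      intro v
      rw [pow_succ, Module.End.mul_apply, pow_succ, Module.End.mul_apply, ← ih]
      congr 1
      rw [LinearMap.sub_apply, LinearMap.sub_apply, Module.End.one_apply, Module.End.one_apply,
        map_sub, ← rho_mul, ← rho_mul]
      congr 3
      group
  rw [e, hk, map_zero]

/-- If `Z_j` acts unipotently on `U` and `g ∈ Z_(j+1)`, the unipotent part of `g` in `U` is
invariant. -/
theorem inv_GE {j : ℕ} {U : Submodule K E} (hU : ∀ h : G, Inva ρ h U)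
    (hj : ∀ c ∈ Subgroup.upperCentralSeries G j, U ≤ GE ρ c) {g : G}
    (hg : g ∈ Subgroup.upperCentralSeries G (j + 1)) (h : G) : Inva ρ h (U ⊓ GE ρ g) := by
  have hgs : Inva ρ g (U ⊓ GE ρ g) := by
    intro v hv
    refine ⟨hU g v hv.1, ?_⟩
    have := hv.2
    apply GE_conj (g := g) (h := g)
    have e : g⁻¹ * g * g = g := by group
    rw [e]
    exact this
  have key : ∀ i, i ≤ j → (∀ c ∈ Subgroup.upperCentralSeries G i, Inva ρ c (U ⊓ GE ρ g)) →
      ∀ h : G, g⁻¹ * h⁻¹ * g * h ∈ Subgroup.upperCentralSeries G i → Inva ρ h (U ⊓ GE ρ g) := by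
    intro i hi hs h hh v hv
    refine ⟨hU h v hv.1, ?_⟩
    apply GE_conj
    have h1 := kolchin (i := i) (g := g) (W := U ⊓ GE ρ g) inf_le_right
      (fun c hc => inf_le_left.trans (hj c (Subgroup.upperCentralSeries_mono G hi hc)))
      hgs hs hh
    have e : g * (g⁻¹ * h⁻¹ * g * h) = h⁻¹ * g * h := by group
    rw [e] at h1
    exact h1 hv
  have hall : ∀ i, i ≤ j → ∀ c ∈ Subgroup.upperCentralSeries G i, Inva ρ c (U ⊓ GE ρ g) := by
    intro i
    induction i with
    | zero =>
      intro _ c hc v hv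
      rw [Subgroup.upperCentralSeries_zero, Subgroup.mem_bot] at hc
      rw [hc, rho_one]
      exact hv
    | succ i ih =>
      intro hi c hc
      exact key i (by omega) (ih (by omega)) c (comm_mem' hc g)
  exact key j le_rfl (hall j le_rfl) h (comm_mem hg h)

theorem aeval_mem {T : Module.End K E} {U : Submodule K E} (hU : ∀ v ∈ U, T v ∈ U) (q : K[X])
    {v : E} (hv : v ∈ U) : aeval T q v ∈ U := by
  induction q using Polynomial.induction_on' with
  | add p q hp hq =>
    rw [map_add, LinearMap.add_apply]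
    exact U.add_mem hp hq
  | monomial n a =>
    have hp : ∀ n : ℕ, (T ^ n) v ∈ U := by
      intro n
      induction n with
      | zero => simpa using hv
      | succ n ih =>
        rw [pow_succ', Module.End.mul_apply]
        exact hU _ ih
    rw [aeval_monomial, Module.End.mul_apply, Module.algebraMap_end_apply]
    exact U.smul_mem _ (hp n)

theorem aeval_fun {T : Module.End K E} {t : E →ₗ[K] K} (ht : ∀ v, t (T v) = t v) (q : K[X])
    (v : E) : t (aeval T q v) = q.eval 1 * t v := by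
  induction q using Polynomial.induction_on' with
  | add p q hp hq =>
    rw [map_add, LinearMap.add_apply, map_add, hp, hq, eval_add, add_mul]
  | monomial n a =>
    have hp : ∀ n : ℕ, t ((T ^ n) v) = t v := by
      intro n
      induction n with
      | zero => simp
      | succ n ih =>
        rw [pow_succ', Module.End.mul_apply, ht, ih]
    rw [aeval_monomial, Module.End.mul_apply, Module.algebraMap_end_apply, map_smul, hp,
      eval_monomial, one_pow, mul_one, smul_eq_mul]

/-- the unipotent part carries the invariant functional -/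
theorem exists_GE {g : G} {U : Submodule K E} (hU : Inva ρ g U) {t : E →ₗ[K] K}
    (ht : ∀ v, t (ρ g v) = t v) {v : E} (hv : v ∈ U) (hv0 : t v ≠ 0) :
    ∃ w ∈ U ⊓ GE ρ g, t w ≠ 0 := by
  have hp0 : minpoly K (ρ g) ≠ 0 := minpoly.ne_zero (Algebra.IsIntegral.isIntegral _)
  obtain ⟨q, hq, hq1⟩ := exists_eq_pow_rootMultiplicity_mul_and_not_dvd (minpoly K (ρ g)) hp0 1
  set a := (minpoly K (ρ g)).rootMultiplicity 1
  have hq1' : q.eval 1 ≠ 0 := fun h => hq1 (dvd_iff_isRoot.2 h)
  refine ⟨aeval (ρ g) q v, ⟨aeval_mem hU q hv, mem_GE.2 ⟨a, ?_⟩⟩, ?_⟩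
  · have h1 : aeval (ρ g) (minpoly K (ρ g)) = 0 := minpoly.aeval K (ρ g)
    rw [hq, map_mul, map_pow, map_sub, aeval_X, aeval_C, map_one] at h1
    have h2 := LinearMap.congr_fun h1 v
    rwa [Module.End.mul_apply, LinearMap.zero_apply] at h2
  · rw [aeval_fun ht]
    exact mul_ne_zero hq1' hv0

/-- **The unipotent subspace.** -/
theorem exists_unip [Group.IsNilpotent G] {t : E →ₗ[K] K} (ht : ∀ g v, t (ρ g v) = t v)
    (ht0 : t ≠ 0) :
    ∃ U : Submodule K E, (∀ g, Inva ρ g U) ∧ (∃ v ∈ U, t v ≠ 0) ∧ ∀ g, U ≤ GE ρ g := by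
  classical
  let S : Set (Submodule K E) := {U | (∀ g, Inva ρ g U) ∧ ∃ v ∈ U, t v ≠ 0}
  have hS : (⊤ : Submodule K E) ∈ S := by
    refine ⟨fun g v _ => Submodule.mem_top, ?_⟩
    by_contra hcon
    push Not at hcon
    exact ht0 (LinearMap.ext fun v => hcon v Submodule.mem_top)
  obtain ⟨U, ⟨hU, v, hv, hv0⟩, hmin⟩ := WellFounded.has_min
    (wellFounded_lt (α := Submodule K E)) S ⟨_, hS⟩
  have hall : ∀ j, ∀ g ∈ Subgroup.upperCentralSeries G j, U ≤ GE ρ g := by
    intro j
    induction j with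
    | zero =>
      intro g hg w _
      rw [Subgroup.upperCentralSeries_zero, Subgroup.mem_bot] at hg
      refine mem_GE.2 ⟨1, ?_⟩
      rw [pow_one, hg, map_one, sub_self, LinearMap.zero_apply]
    | succ j ih =>
      intro g hg
      have h1 := inv_GE hU ih hg
      have h2 : (U ⊓ GE ρ g) ∈ S := ⟨h1, exists_GE (hU g) (ht g) hv hv0⟩
      have h3 : U ⊓ GE ρ g = U := by
        by_contra hne
        exact hmin _ h2 (lt_of_le_of_ne inf_le_left hne)
      rw [← h3]
      exact inf_le_right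
  obtain ⟨n, hn⟩ := Group.IsNilpotent.nilpotent G
  exact ⟨U, hU, ⟨v, hv, hv0⟩, fun g => hall n g (by rw [hn]; exact Subgroup.mem_top g)⟩

end uni

end Pool.Agent.V5helper56.AN
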